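import Pool.Agent.Helper37.KDB.Extra

/-! Project KDB, piece C6: numerics of the cost. -/

set_option autoImplicit false

namespace KDB.I.C6

open MeasureTheory KDB
open scoped ENNReal

variable (p : Par)

/-- the purely real part of the estimate -/
lemma core (n d L la lL K1 K2 R q b lc Y nu N F lost l16 l50 : ℝ)
    (hn : 1 ≤ n) (hd : 1500 ≤ d) (hla : 1000000 ≤ la) (hL : L ≤ la / 1000000)
    (hK1 : 1000 ≤ K1) (hK1a : K1 ≤ la / 10000) (hK2 : 0 < K2) (hK2a : K2 ≤ la / 10000)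
    (hlL0 : 0 ≤ lL) (hlL : K1 * lL ≤ la / 10) (hR : 10 * K2 ≤ R) (hq : 10 * K1 ≤ q)
    (hb : 1000 * (b + 1) * K1 ≤ d) (hb0 : 0 ≤ b) (hlc0 : lc ≤ la / 10000)
    (hY : Y ≤ 3 / 2 * n) (hnu0 : 0 ≤ nu) (hnu : nu ≤ K1 * n)
    (hN : N ≤ K2 * n) (hf : F ≤ n) (hlost0 : 0 ≤ lost)
    (hl : 48 * lost ≤ Y + F + N / R + nu / q) (h16 : l16 ≤ 3 + lL) (h50 : l50 ≤ 5) :
    d * la * Y + (la + 1) * (Y + (b + 1) * nu) + nu * (lL + 5 + 24 * d) +
      50 * L * n * (2 + 12 * d) + (1 + 4 * d) * (nu + 50 * L * n + N) +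
      lost * (2 * d * la + d * l16) + n * (1 + 3 * d + 2 * d * lc) + nu * (1 + 2 * d) + n * l50
      ≤ 17 / 10 * n * d * la := by
  have hn0 : 0 ≤ n := by linarith
  have hd0 : 0 ≤ d := by linarith
  have hla0 : 0 ≤ la := by linarith
  have hK10 : 0 ≤ K1 := by linarith
  have hnd : 0 ≤ n * d := mul_nonneg hn0 hd0
  have hT : 0 ≤ n * d * la := mul_nonneg hnd hla0
  have hnT : 1500 * n ≤ n * d := by nlinarith
  have hnla : 1500 * (n * la) ≤ n * d * la := by
    have := mul_le_mul_of_nonneg_right hnT hla0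
    linarith
  have hndla : 1000000 * (n * d) ≤ n * d * la := by
    have := mul_le_mul_of_nonneg_left hla hnd
    linarith
  have hnn : 1000000000 * n ≤ n * d * la := by linarith
  -- term 1
  have t1 : d * la * Y ≤ 3 / 2 * (n * d * la) := by
    have := mul_le_mul_of_nonneg_left hY (mul_nonneg hd0 hla0)
    linarith
  -- term 2
  have hbn : (b + 1) * nu ≤ n * d / 1000 := by
    have h1 : (b + 1) * nu ≤ (b + 1) * (K1 * n) := mul_le_mul_of_nonneg_left hnu (by linarith)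
    have h2 : 1000 * (b + 1) * K1 * n ≤ d * n := mul_le_mul_of_nonneg_right hb hn0
    linarith
  have t2 : (la + 1) * (Y + (b + 1) * nu) ≤ 4 / 1000 * (n * d * la) := by
    have h1 : Y + (b + 1) * nu ≤ 2 / 1000 * (n * d) := by linarith
    have h2 : (la + 1) * (Y + (b + 1) * nu) ≤ (la + 1) * (2 / 1000 * (n * d)) :=
      mul_le_mul_of_nonneg_left h1 (by linarith)
    linarith
  -- term 3
  have t3 : nu * (lL + 5 + 24 * d) ≤ 3 / 1000 * (n * d * la) := by
    have h1 : nu * (lL + 5 + 24 * d) ≤ K1 * n * (lL + 5 + 24 * d) :=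
      mul_le_mul_of_nonneg_right hnu (by linarith)
    have h2 : K1 * lL * n ≤ la / 10 * n := mul_le_mul_of_nonneg_right hlL hn0
    have h3 : K1 * n ≤ la / 10000 * n := mul_le_mul_of_nonneg_right hK1a hn0
    have h4 : K1 * (n * d) ≤ la / 10000 * (n * d) := mul_le_mul_of_nonneg_right hK1a hnd
    linarith
  -- term 4
  have hLn : L * n ≤ la / 1000000 * n := mul_le_mul_of_nonneg_right hL hn0
  have hLnd : L * (n * d) ≤ la / 1000000 * (n * d) := mul_le_mul_of_nonneg_right hL hnd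
  have t4 : 50 * L * n * (2 + 12 * d) ≤ 1 / 1000 * (n * d * la) := by linarith
  -- term 5
  have t5 : (1 + 4 * d) * (nu + 50 * L * n + N) ≤ 2 / 1000 * (n * d * la) := by
    have h1 : nu + 50 * L * n + N ≤ 3 / 10000 * (n * la) := by
      have h3 : K1 * n ≤ la / 10000 * n := mul_le_mul_of_nonneg_right hK1a hn0
      have h4 : K2 * n ≤ la / 10000 * n := mul_le_mul_of_nonneg_right hK2a hn0
      linarith
    have h2 : (1 + 4 * d) * (nu + 50 * L * n + N) ≤ (1 + 4 * d) * (3 / 10000 * (n * la)) :=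
      mul_le_mul_of_nonneg_left h1 (by linarith)
    linarith
  -- term 6
  have hNR : N / R ≤ n / 10 := by
    have hR0 : 0 < R := by linarith
    rw [div_le_iff₀ hR0]
    have h1 : n * (10 * K2) ≤ n * R := mul_le_mul_of_nonneg_left hR hn0
    linarith
  have hnq : nu / q ≤ n / 10 := by
    have hq0 : 0 < q := by linarith
    rw [div_le_iff₀ hq0]
    have h1 : n * (10 * K1) ≤ n * q := mul_le_mul_of_nonneg_left hq hn0
    linarith
  have hlost : lost ≤ 27 / 480 * n := by linarith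
  have hlL2 : lL ≤ la / 10000 := by
    have h1 : 1000 * lL ≤ K1 * lL := mul_le_mul_of_nonneg_right hK1 hlL0
    linarith
  have t6 : lost * (2 * d * la + d * l16) ≤ 1130 / 10000 * (n * d * la) := by
    have h1 : 2 * d * la + d * l16 ≤ 2001 / 1000 * (d * la) := by
      have h2 : d * l16 ≤ d * (la / 1000) := mul_le_mul_of_nonneg_left (by linarith) hd0
      linarith
    have h0 : 0 ≤ d * la := mul_nonneg hd0 hla0
    have h3 : lost * (2 * d * la + d * l16) ≤ lost * (2001 / 1000 * (d * la)) :=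
      mul_le_mul_of_nonneg_left h1 hlost0
    have h4 : lost * (2001 / 1000 * (d * la)) ≤ 27 / 480 * n * (2001 / 1000 * (d * la)) :=
      mul_le_mul_of_nonneg_right hlost (by linarith)
    linarith
  -- term 7
  have t7 : n * (1 + 3 * d + 2 * d * lc) ≤ 1 / 1000 * (n * d * la) := by
    have h1 : n * d * lc ≤ n * d * (la / 10000) := mul_le_mul_of_nonneg_left hlc0 hnd
    linarith
  -- term 8
  have t8 : nu * (1 + 2 * d) ≤ 1 / 1000 * (n * d * la) := by
    have h1 : nu * (1 + 2 * d) ≤ K1 * n * (1 + 2 * d) :=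
      mul_le_mul_of_nonneg_right hnu (by linarith)
    have h3 : K1 * n ≤ la / 10000 * n := mul_le_mul_of_nonneg_right hK1a hn0
    have h4 : K1 * (n * d) ≤ la / 10000 * (n * d) := mul_le_mul_of_nonneg_right hK1a hnd
    linarith
  -- term 9
  have t9 : n * l50 ≤ 1 / 1000 * (n * d * la) := by
    have h1 : n * l50 ≤ n * 5 := mul_le_mul_of_nonneg_left h50 hn0
    linarith
  linarith

lemma log16_le : Real.log 16 ≤ 3 := by
  have h : Real.log 16 = 4 * Real.log 2 := by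
    rw [show (16 : ℝ) = 2 ^ 4 by norm_num, Real.log_pow]
    norm_num
  have := Real.log_two_lt_d9
  rw [h]
  linarith

lemma log50_le : Real.log 50 ≤ 5 := by
  have h2 : Real.log 50 ≤ Real.log 64 := Real.log_le_log (by norm_num) (by norm_num)
  have h : Real.log 64 = 6 * Real.log 2 := by
    rw [show (64 : ℝ) = 2 ^ 6 by norm_num, Real.log_pow]
    norm_num
  have := Real.log_two_lt_d9
  linarith

/-- NUMERICS of the cost -/
theorem cost_num (hp : p.Reg) (om : ℕ → Nz p.d) (t : ℕ) (c : ℕ → ℕ)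
    (hY : (p.Yf om t : ℝ) ≤ 3 / 2 * p.n) (hnu : (p.nuf om t : ℝ) ≤ p.K1 * p.n)
    (hN : p.Nf om t ≤ p.K2 * p.n) (hf : (p.failf om t : ℝ) ≤ p.n)
    (hl : 48 * (p.lostf t c : ℝ) ≤ p.Yf om t + p.failf om t + p.Nf om t / p.R +
      p.nuf om t / p.q) :
    p.cost om t c + p.n * Real.log 50 ≤ 17 / 10 * p.n * p.d * Real.log p.ell := by
  have hLn : (1000 : ℝ) ≤ (p.L : ℝ) := by exact_mod_cast hp.hL
  have hL1 : (1 : ℝ) ≤ (p.L : ℝ) := by linarith
  have hlL : 1000 ≤ Real.log p.L := hp.r1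
  have hmu : 7300 ≤ p.mu := by
    have := hp.r2
    linarith
  have hK1 : p.K1 = 400 * p.mu := rfl
  have hK2 : p.K2 = 1000 * (p.L : ℝ) ^ 2 * p.mu := rfl
  have hK1' : 2000000 ≤ p.K1 := by rw [hK1]; linarith
  have hLL : (p.L : ℝ) ≤ (p.L : ℝ) ^ 2 := by
    rw [pow_two]
    have := mul_le_mul_of_nonneg_left hL1 (by linarith : (0 : ℝ) ≤ (p.L : ℝ))
    linarith
  have hK2L : 1000000 * (p.L : ℝ) ≤ p.K2 := by
    rw [hK2]
    have h1 : (p.L : ℝ) ^ 2 * 7300 ≤ (p.L : ℝ) ^ 2 * p.mu :=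
      mul_le_mul_of_nonneg_left hmu (by positivity)
    linarith
  have hlc : Real.log (p.CR : ℝ) ≤ Real.log ((p.CR : ℝ) + 1) := by
    rcases Nat.eq_zero_or_pos p.CR with h | h
    · rw [h]
      simp
    · exact Real.log_le_log (by exact_mod_cast h) (by linarith)
  have hlc0 : 0 ≤ Real.log ((p.CR : ℝ) + 1) :=
    Real.log_nonneg (by
      have : (0 : ℝ) ≤ (p.CR : ℝ) := Nat.cast_nonneg _
      linarith)
  have h6 := hp.r6
  have hb0 : (0 : ℝ) ≤ (p.b : ℝ) := Nat.cast_nonneg _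
  have h7 := hp.r7
  have hd : (1500 : ℝ) ≤ (p.d : ℝ) := by
    have h1 : p.K1 ≤ ((p.b : ℝ) + 1) * p.K1 := by
      have := mul_nonneg hb0 (by linarith : (0 : ℝ) ≤ p.K1)
      linarith
    have h2 : 1000 * ((p.b : ℝ) + 1) * p.K1 = 1000 * (((p.b : ℝ) + 1) * p.K1) := by ring
    linarith
  have hla : Real.log (p.ell : ℝ) = p.q * Real.log p.L := by
    unfold Par.ell
    push_cast
    rw [Real.log_pow]
  have hKlL : p.K1 * Real.log p.L ≤ Real.log (p.ell : ℝ) / 10 := by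
    rw [hla]
    have h1 : 10 * p.K1 * Real.log p.L ≤ p.q * Real.log p.L :=
      mul_le_mul_of_nonneg_right hp.r8 (by linarith)
    linarith
  have h16 : Real.log (16 * (p.L : ℝ)) ≤ 3 + Real.log p.L := by
    rw [Real.log_mul (by norm_num) (by linarith)]
    have := log16_le
    linarith
  have hn1 : (1 : ℝ) ≤ (p.n : ℝ) := by exact_mod_cast hp.hn
  have hK20 : 0 < p.K2 := by linarith
  have key := core (p.n : ℝ) (p.d : ℝ) (p.L : ℝ) (Real.log p.ell) (Real.log p.L) p.K1 p.K2 p.R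
    (p.q : ℝ) (p.b : ℝ) (Real.log p.CR) (p.Yf om t : ℝ) (p.nuf om t : ℝ) (p.Nf om t)
    (p.failf om t : ℝ) (p.lostf t c : ℝ) (Real.log (16 * p.L)) (Real.log 50) hn1 hd
    (by linarith) (by linarith) (by linarith) (by linarith) hK20 (by linarith)
    (by linarith) hKlL hp.r5 hp.r8 h7 hb0 (by linarith) hY
    (Nat.cast_nonneg _) hnu hN hf (Nat.cast_nonneg _) hl h16 log50_le
  unfold Par.cost
  exact key

end KDB.I.C6
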