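import Pool.Agent.Helper37.KDB.Extra
import Pool.Agent.Helper37.KDB.St.P5
import Pool.Agent.Helper37.KDB.St.P8
import Pool.Agent.Helper37.KDB.St.P9

/-! Project KDB, piece P13: the number of velocity digits. -/

set_option autoImplicit false

namespace KDB.I.P13

open MeasureTheory KDB
open scoped ENNReal

variable (p : Par)

lemma geo_le {z : ℝ} (hz0 : 0 ≤ z) (hz : z ≤ 1 / 2) (N : ℕ) :
    ∑ r ∈ Finset.range N, z ^ r ≤ 2 - 2 * z ^ N := by
  induction N with
  | zero => simp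
  | succ N ih =>
    rw [Finset.sum_range_succ, pow_succ]
    have h1 : 0 ≤ z ^ N := pow_nonneg hz0 N
    have h2 : z ^ N * z ≤ z ^ N * (1 / 2) := mul_le_mul_of_nonneg_left hz h1
    linarith

lemma geo_le2 {z : ℝ} (hz0 : 0 ≤ z) (hz : z ≤ 1 / 2) (N : ℕ) :
    ∑ r ∈ Finset.range N, z ^ r ≤ 2 := by
  have h1 := geo_le hz0 hz N
  have h2 : 0 ≤ z ^ N := pow_nonneg hz0 N
  linarith

lemma geo_shift {z : ℝ} (hz0 : 0 ≤ z) (hz : z ≤ 1 / 2) (s n : ℕ) :
    ∑ k ∈ Finset.range n, (if s < k then z ^ (k - s) else 0) ≤ 2 * z := by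
  have h1 : ∑ k ∈ Finset.range n, (if s < k then z ^ (k - s) else 0) =
      ∑ k ∈ Finset.Ico (s + 1) n, z ^ (k - s) := by
    rw [← Finset.sum_filter]
    refine Finset.sum_congr ?_ fun _ _ => rfl
    ext k
    simp only [Finset.mem_filter, Finset.mem_range, Finset.mem_Ico]
    omega
  have h2 : ∑ k ∈ Finset.Ico (s + 1) n, z ^ (k - s) =
      (∑ r ∈ Finset.range (n - (s + 1)), z ^ r) * z := by
    rw [Finset.sum_Ico_eq_sum_range, Finset.sum_mul]
    refine Finset.sum_congr rfl fun i _ => ?_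
    rw [show s + 1 + i - s = i + 1 by omega, pow_succ]
  rw [h1, h2]
  exact mul_le_mul_of_nonneg_right (geo_le2 hz0 hz _) hz0

/-- the twentieth root of `L` -/
noncomputable def yy : ℝ := (p.L : ℝ) ^ (1 / 20 : ℝ)

/-- the exponential weight -/
noncomputable def th : ℝ := 19 / 20 * Real.log p.L

lemma L_pos (hp : p.Ok) : (0 : ℝ) < p.L := by
  have h : (1000 : ℝ) ≤ (p.L : ℝ) := by exact_mod_cast hp.hL
  linarith

lemma yy_pow (hp : p.Ok) : yy p ^ 20 = (p.L : ℝ) := by
  unfold yy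
  rw [← Real.rpow_natCast, ← Real.rpow_mul (L_pos p hp).le]
  norm_num

lemma yy_pos (hp : p.Ok) : 0 < yy p := Real.rpow_pos_of_pos (L_pos p hp) _

lemma exp_th (hp : p.Ok) (r : ℕ) : Real.exp (th p * (r : ℝ)) = (yy p ^ 19) ^ r := by
  have h1 : Real.exp (th p) = yy p ^ 19 := by
    have h2 : Real.log p.L = 20 * Real.log (yy p) := by
      rw [← yy_pow p hp, Real.log_pow]
      norm_num
    have h3 : th p = Real.log (yy p ^ 19) := by
      unfold th
      rw [h2, Real.log_pow]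
      push_cast
      ring
    rw [h3, Real.exp_log (pow_pos (yy_pos p hp) _)]
  rw [mul_comm, Real.exp_nat_mul, h1]

lemma htau (hp : p.Ok) (m : ℕ) : p.h * (p.tau (m + 1) : ℝ) = (p.L : ℝ) ^ (m + 1) := by
  have hL := L_pos p hp
  have hH : (0 : ℝ) < p.H := by exact_mod_cast (by have := hp.hH; omega : 0 < p.H)
  unfold Par.h Par.tau
  push_cast
  rw [pow_add]
  field_simp

lemma h_nonneg (hp : p.Ok) : 0 ≤ p.h := by
  have hL := L_pos p hp
  unfold Par.h
  positivity

/-- the kick integral -/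
lemma kick_int (hp : p.Ok) (hy : 2 ≤ yy p) (m : ℕ) :
    Integrable (fun w => p.kd w * (Real.exp (th p * ((p.kl w - m : ℕ) : ℝ)) - 1)) ∧
    ∫ w, p.kd w * (Real.exp (th p * ((p.kl w - m : ℕ) : ℝ)) - 1) ≤
      2 * (p.lam * (2 ^ p.d * p.d * p.q)) * (yy p ^ 19 * ((p.L : ℝ) ^ m)⁻¹) := by
  have hy0 := yy_pos p hp
  have hL := L_pos p hp
  have hlam := hp.hlam
  have hth : 0 ≤ th p := by
    unfold th
    have h1 : (1 : ℝ) ≤ p.L := by
      have h : (1000 : ℝ) ≤ (p.L : ℝ) := by exact_mod_cast hp.hL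
      linarith
    have := Real.log_nonneg h1
    linarith
  obtain ⟨hi, hle⟩ := kick_lv p hp m (fun i => Real.exp (th p * ((i - m : ℕ) : ℝ)) - 1)
    (by
      intro i hi
      rw [Nat.sub_eq_zero_of_le hi]
      simp)
    (by
      intro i
      have h1 : 0 ≤ th p * ((i - m : ℕ) : ℝ) := mul_nonneg hth (Nat.cast_nonneg _)
      have h2 := Real.add_one_le_exp (th p * ((i - m : ℕ) : ℝ))
      linarith)
  refine ⟨hi, hle.trans ?_⟩
  have hA : 0 ≤ p.lam * (2 ^ p.d * p.d * p.q) := by positivity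
  have hterm : ∀ k ∈ Finset.Ico m p.n,
      (Real.exp (th p * ((k + 1 - m : ℕ) : ℝ)) - 1) *
        (p.lam * (2 ^ p.d * p.d * p.q) * ((p.L : ℝ) ^ k)⁻¹) ≤
      (p.lam * (2 ^ p.d * p.d * p.q)) * (yy p ^ 19 * ((p.L : ℝ) ^ m)⁻¹) *
        ((yy p)⁻¹) ^ (k - m) := by
    intro k hk
    obtain ⟨r, rfl⟩ : ∃ r, k = m + r := ⟨k - m, by have := (Finset.mem_Ico.mp hk).1; omega⟩
    rw [show m + r + 1 - m = r + 1 by omega, show m + r - m = r by omega, exp_th p hp]
    have h1 : ((yy p ^ 19) ^ (r + 1) - 1) * (p.lam * (2 ^ p.d * p.d * p.q) *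
        ((p.L : ℝ) ^ (m + r))⁻¹) ≤ (yy p ^ 19) ^ (r + 1) * (p.lam * (2 ^ p.d * p.d * p.q) *
        ((p.L : ℝ) ^ (m + r))⁻¹) := by
      refine mul_le_mul_of_nonneg_right (by linarith) (mul_nonneg hA ?_)
      positivity
    refine h1.trans (le_of_eq ?_)
    have h2 : (p.L : ℝ) ^ (m + r) = (p.L : ℝ) ^ m * (yy p ^ 20) ^ r := by
      rw [pow_add, yy_pow p hp]
    rw [h2]
    have h3 : (yy p ^ 19) ^ (r + 1) * ((yy p ^ 20) ^ r)⁻¹ = yy p ^ 19 * ((yy p)⁻¹) ^ r := by
      have h4 : (yy p ^ 20) ^ r = (yy p ^ 19) ^ r * yy p ^ r := by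
        rw [← mul_pow]
        congr 1
      rw [h4, pow_succ, inv_pow]
      have h5 : (yy p ^ 19) ^ r ≠ 0 := by positivity
      have h6 : yy p ^ r ≠ 0 := by positivity
      field_simp
    rw [mul_inv]
    calc (yy p ^ 19) ^ (r + 1) * (p.lam * (2 ^ p.d * p.d * p.q) *
          (((p.L : ℝ) ^ m)⁻¹ * ((yy p ^ 20) ^ r)⁻¹))
        = p.lam * (2 ^ p.d * p.d * p.q) * ((p.L : ℝ) ^ m)⁻¹ *
          ((yy p ^ 19) ^ (r + 1) * ((yy p ^ 20) ^ r)⁻¹) := by ring
      _ = _ := by rw [h3]; ring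
  refine (Finset.sum_le_sum hterm).trans ?_
  rw [← Finset.mul_sum]
  have h2 : ∑ k ∈ Finset.Ico m p.n, ((yy p)⁻¹) ^ (k - m) ≤ 2 := by
    rw [Finset.sum_Ico_eq_sum_range]
    have h3 : ∀ i ∈ Finset.range (p.n - m), ((yy p)⁻¹) ^ (m + i - m) = ((yy p)⁻¹) ^ i := by
      intro i _
      rw [show m + i - m = i by omega]
    rw [Finset.sum_congr rfl h3]
    refine geo_le2 (by positivity) ?_ _
    rw [one_div]
    exact inv_anti₀ (by norm_num) hy
  have h4 : 0 ≤ (p.lam * (2 ^ p.d * p.d * p.q)) * (yy p ^ 19 * ((p.L : ℝ) ^ m)⁻¹) :=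
    mul_nonneg hA (by positivity)
  have h5 := mul_le_mul_of_nonneg_left h2 h4
  linarith

lemma pring_nonneg (hp : p.Ok) (k j : ℕ) : 0 ≤ p.pring k j := by
  unfold Par.pring
  have h1 := (chi_bounds p k j).1
  have h2 := hp.hmu
  positivity

lemma card_Ico_le (t T : ℕ) : ((Finset.Ico (t - T) t).card : ℝ) ≤ T := by
  rw [Nat.card_Ico]
  exact_mod_cast (by omega : t - (t - T) ≤ T)

/-- the ring sum for one memory level -/
lemma ring_sum (hp : p.Ok) (hy : 2 ≤ yy p) (t m : ℕ) :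
    ∑ j ∈ Finset.Ico (t - MM * p.tau (m + 1)) t, ∑ k ∈ Finset.range p.n,
      p.pring k j * (Real.exp (th p * ((k - p.b - m : ℕ) : ℝ)) - 1) ≤
      100 * p.mu * (yy p)⁻¹ := by
  have hy0 := yy_pos p hp
  have hL := L_pos p hp
  have hmu := hp.hmu
  have hH : (0 : ℝ) < p.H := by exact_mod_cast (by have := hp.hH; omega : 0 < p.H)
  rw [Finset.sum_comm]
  have hterm : ∀ k ∈ Finset.range p.n,
      ∑ j ∈ Finset.Ico (t - MM * p.tau (m + 1)) t,
        p.pring k j * (Real.exp (th p * ((k - p.b - m : ℕ) : ℝ)) - 1) ≤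
      50 * p.mu * (if p.b + m < k then ((yy p)⁻¹) ^ (k - (p.b + m)) else 0) := by
    intro k _
    rw [← Finset.sum_mul]
    by_cases hk : p.b + m < k
    · rw [if_pos hk]
      obtain ⟨r, hr⟩ : ∃ r, k = p.b + m + r := ⟨k - (p.b + m), by omega⟩
      rw [show k - p.b - m = r by omega, show k - (p.b + m) = r by omega, exp_th p hp]
      have h1 : ∑ j ∈ Finset.Ico (t - MM * p.tau (m + 1)) t, p.pring k j ≤
          p.mu * (50 * (p.tau (m + 1) : ℝ)) / p.W k := by
        refine (ring_crude p hp k _ _).trans ?_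
        have hWk : (0 : ℝ) ≤ p.W k := Nat.cast_nonneg _
        refine div_le_div_of_nonneg_right ?_ hWk
        refine mul_le_mul_of_nonneg_left ?_ hmu.le
        have h2 : t - (t - MM * p.tau (m + 1)) ≤ 50 * p.tau (m + 1) := by
          unfold MM
          omega
        exact_mod_cast h2
      have h0 : 0 ≤ ∑ j ∈ Finset.Ico (t - MM * p.tau (m + 1)) t, p.pring k j :=
        Finset.sum_nonneg fun j _ => pring_nonneg p hp k j
      have h3 : (∑ j ∈ Finset.Ico (t - MM * p.tau (m + 1)) t, p.pring k j) *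
          ((yy p ^ 19) ^ r - 1) ≤ p.mu * (50 * (p.tau (m + 1) : ℝ)) / p.W k *
            (yy p ^ 19) ^ r := by
        have h4 : (∑ j ∈ Finset.Ico (t - MM * p.tau (m + 1)) t, p.pring k j) *
          ((yy p ^ 19) ^ r - 1) ≤ (∑ j ∈ Finset.Ico (t - MM * p.tau (m + 1)) t, p.pring k j) *
          (yy p ^ 19) ^ r := mul_le_mul_of_nonneg_left (by linarith) h0
        exact h4.trans (mul_le_mul_of_nonneg_right h1 (by positivity))
      refine h3.trans (le_of_eq ?_)
      unfold Par.tau Par.W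
      push_cast
      have e1 : (p.L : ℝ) ^ k = (p.L : ℝ) ^ (m + 1 + p.q) * (yy p ^ 20) ^ r := by
        rw [yy_pow p hp, ← pow_add]
        congr 1
        unfold Par.b at hr
        omega
      have e2 : (yy p ^ 20) ^ r = (yy p ^ 19) ^ r * yy p ^ r := by
        rw [← mul_pow]
        congr 1
      rw [e1, e2, inv_pow]
      have h5 : (yy p ^ 19) ^ r ≠ 0 := by positivity
      have h6 : yy p ^ r ≠ 0 := by positivity
      have h7 : (p.L : ℝ) ^ (m + 1 + p.q) ≠ 0 := by positivity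
      field_simp
    · rw [if_neg hk, show k - p.b - m = 0 by omega]
      simp
  refine (Finset.sum_le_sum hterm).trans ?_
  rw [← Finset.mul_sum]
  have h2 : ∑ k ∈ Finset.range p.n, (if p.b + m < k then ((yy p)⁻¹) ^ (k - (p.b + m)) else 0) ≤
      2 * (yy p)⁻¹ := by
    refine geo_shift (by positivity) ?_ _ _
    rw [one_div]
    exact inv_anti₀ (by norm_num) hy
  have h3 := mul_le_mul_of_nonneg_left h2 (by linarith : 0 ≤ 50 * p.mu)
  linarith

/-- the four bounds -/
theorem prob_Y (hp : p.Reg) (hH : p.Hok) (N t : ℕ) (ht : t ≤ N) (htn : t ≤ p.tau p.n) :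
    p.pathLaw N {om | (3 / 2 : ℝ) * p.n < p.Yf (p.exte N om) t} ≤
      ENNReal.ofReal ((p.L : ℝ) ^ (-(7 / 5 : ℝ) * p.n)) := by
  have hok : p.Ok := hp.toOk
  have hL := L_pos p hok
  have hlog : 1000 ≤ Real.log p.L := hp.r1
  have hth : 0 < th p := by
    unfold th
    linarith
  have hmu : 7300 ≤ p.mu := by
    have := hp.r2
    linarith
  have hyl : 200 * p.mu ≤ yy p := hp.r3
  have hy2 : 2 ≤ yy p := by linarith
  have hy0 : 0 < yy p := by linarith
  have hhn := h_nonneg p hok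
  set A : ℝ := p.lam * (2 ^ p.d * p.d * p.q) with hA
  have hlam := hok.hlam
  have hA0 : 0 ≤ A := by
    rw [hA]
    positivity
  let g1 : ℕ → V p.d → ℝ := fun j w => th p * ((p.kl w - p.mst t j : ℕ) : ℝ)
  let g2 : ℕ → ℕ → ℝ := fun j k => th p * ((k - p.b - p.mst t j : ℕ) : ℝ)
  let a : ℕ → ℝ := fun j => p.h * (∫ w, p.kd w * (Real.exp (g1 j w) - 1)) +
        ∑ k ∈ Finset.range p.n, p.pring k j * (Real.exp (g2 j k) - 1)
  have hch := chernoff_sum p hok hH N t ht g1 g2
    (by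
      intro j
      have h1 : Measurable fun n : ℕ => th p * ((n - p.mst t j : ℕ) : ℝ) :=
        measurable_from_nat
      exact h1.comp (kl_meas p))
    (fun j w => mul_nonneg hth.le (Nat.cast_nonneg _))
    (fun j k => mul_nonneg hth.le (Nat.cast_nonneg _))
    (fun j _ => (kick_int p hok hy2 (p.mst t j)).1) a (fun j _ => le_refl _)
    (fun om => th p * (p.Yf om t : ℝ))
    (by
      intro om
      unfold Par.Yf
      push_cast
      rw [Finset.mul_sum]
      refine Finset.sum_le_sum fun j _ => ?_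
      by_cases h0 : (om j).lab = 0
      · rw [if_pos h0, if_neg (by omega)]
        have h1 : p.lv (om j) = 0 := by
          unfold Par.lv
          rw [if_pos h0]
        rw [h1]
        simp
      · rw [if_neg h0]
        by_cases h1 : (om j).lab = 1
        · rw [if_pos h1, if_pos h1]
          have h2 : p.lv (om j) = p.kl (om j).w := by
            unfold Par.lv
            rw [if_neg h0, if_pos h1]
          rw [h2]
        · rw [if_neg h1, if_neg h1]
          have h2 : p.lv (om j) = (om j).lab - 1 := by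
            unfold Par.lv
            rw [if_neg h0, if_neg h1]
          rw [h2]
          show th p * ((((om j).lab - 1 - 1 - p.b - p.mst t j : ℕ) : ℕ) : ℝ) ≤
            th p * (((om j).lab - 2 - p.b - p.mst t j : ℕ) : ℝ)
          rw [show (om j).lab - 1 - 1 = (om j).lab - 2 by omega])
    (th p * (3 / 2 * p.n))
  have hset : {om : Fin N → Nz p.d | (3 / 2 : ℝ) * p.n < p.Yf (p.exte N om) t} ⊆
      {om | th p * (3 / 2 * p.n) < th p * (p.Yf (p.exte N om) t : ℝ)} := by
    intro om hom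
    exact mul_lt_mul_of_pos_left hom hth
  refine (measure_mono hset).trans (hch.trans ?_)
  refine ENNReal.ofReal_le_ofReal ?_
  rw [Real.rpow_def_of_pos hL]
  refine Real.exp_le_exp.mpr ?_
  -- the sum of the exponents
  have hn0 : (0 : ℝ) ≤ p.n := Nat.cast_nonneg _
  have hkick : ∑ j ∈ Finset.range t, p.h * (∫ w, p.kd w * (Real.exp (g1 j w) - 1)) ≤ p.n := by
    have h1 : ∀ j ∈ Finset.range t, p.h * (∫ w, p.kd w * (Real.exp (g1 j w) - 1)) ≤
        (fun (m : ℕ) (_ : ℕ) => p.h * (2 * A * (yy p ^ 19 * ((p.L : ℝ) ^ m)⁻¹)))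
          (p.mst t j) j := by
      intro j _
      exact mul_le_mul_of_nonneg_left (kick_int p hok hy2 (p.mst t j)).2 hhn
    have hs := sum_mst p hok t htn
      (fun (m : ℕ) (_ : ℕ) => p.h * (2 * A * (yy p ^ 19 * ((p.L : ℝ) ^ m)⁻¹)))
      (by
        intro m j
        positivity)
    refine (Finset.sum_le_sum h1).trans (hs.trans ?_)
    have h2 : ∀ m ∈ Finset.range p.n, ∑ j ∈ Finset.Ico (t - MM * p.tau (m + 1)) t,
        (fun (m : ℕ) (_ : ℕ) => p.h * (2 * A * (yy p ^ 19 * ((p.L : ℝ) ^ m)⁻¹))) m j ≤ 1 := by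
      intro m _
      simp only
      rw [Finset.sum_const, nsmul_eq_mul]
      have h3 := card_Ico_le t (MM * p.tau (m + 1))
      have h4 : 0 ≤ p.h * (2 * A * (yy p ^ 19 * ((p.L : ℝ) ^ m)⁻¹)) := by positivity
      refine (mul_le_mul_of_nonneg_right h3 h4).trans ?_
      have h5 : ((MM * p.tau (m + 1) : ℕ) : ℝ) * (p.h * (2 * A * (yy p ^ 19 *
          ((p.L : ℝ) ^ m)⁻¹))) = 100 * A * yy p ^ 19 * (p.L : ℝ) := by
        have h6 := htau p hok m
        have h7 : ((MM * p.tau (m + 1) : ℕ) : ℝ) = 50 * (p.tau (m + 1) : ℝ) := by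
          unfold MM
          push_cast
          ring
        rw [h7]
        calc 50 * (p.tau (m + 1) : ℝ) * (p.h * (2 * A * (yy p ^ 19 * ((p.L : ℝ) ^ m)⁻¹)))
            = 100 * A * yy p ^ 19 * ((p.h * (p.tau (m + 1) : ℝ)) * ((p.L : ℝ) ^ m)⁻¹) := by ring
          _ = 100 * A * yy p ^ 19 * (p.L : ℝ) := by
            rw [h6, pow_succ]
            have h8 : (p.L : ℝ) ^ m ≠ 0 := by positivity
            field_simp
            ring
      rw [h5]
      have h9 : yy p ^ 19 ≤ (p.L : ℝ) := by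
        rw [← yy_pow p hok]
        exact pow_le_pow_right₀ (by linarith) (by norm_num)
      have hLn : (1000 : ℝ) ≤ (p.L : ℝ) := by exact_mod_cast hok.hL
      have h10 : A * (p.L : ℝ) ^ 4 ≤ 1 / 10000 := by
        refine le_trans ?_ hp.r4
        refine mul_le_mul_of_nonneg_right ?_ (by positivity)
        rw [hA]
        refine mul_le_mul_of_nonneg_left ?_ hlam.le
        refine mul_le_mul_of_nonneg_left (by linarith) (by positivity)
      have h11 : (p.L : ℝ) ^ 2 ≤ (p.L : ℝ) ^ 4 := pow_le_pow_right₀ (by linarith) (by norm_num)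
      have h12 : A * yy p ^ 19 * (p.L : ℝ) ≤ A * (p.L : ℝ) ^ 4 := by
        have h13 : yy p ^ 19 * (p.L : ℝ) ≤ (p.L : ℝ) ^ 2 := by
          rw [pow_two]
          exact mul_le_mul_of_nonneg_right h9 hL.le
        have h14 := mul_le_mul_of_nonneg_left (h13.trans h11) hA0
        linarith
      linarith
    refine (Finset.sum_le_sum h2).trans ?_
    rw [Finset.sum_const, Finset.card_range, nsmul_eq_mul, mul_one]
  have hring : ∑ j ∈ Finset.range t, ∑ k ∈ Finset.range p.n,
      p.pring k j * (Real.exp (g2 j k) - 1) ≤ p.n := by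
    have h1 := sum_mst p hok t htn (fun m j => ∑ k ∈ Finset.range p.n,
      p.pring k j * (Real.exp (th p * ((k - p.b - m : ℕ) : ℝ)) - 1)) (by
        intro m j
        refine Finset.sum_nonneg fun k _ => mul_nonneg (pring_nonneg p hok k j) ?_
        have h1 : 0 ≤ th p * ((k - p.b - m : ℕ) : ℝ) := mul_nonneg hth.le (Nat.cast_nonneg _)
        have h2 := Real.add_one_le_exp (th p * ((k - p.b - m : ℕ) : ℝ))
        linarith)
    refine h1.trans ?_
    have h2 : ∀ m ∈ Finset.range p.n, ∑ j ∈ Finset.Ico (t - MM * p.tau (m + 1)) t,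
        (fun m j => ∑ k ∈ Finset.range p.n,
          p.pring k j * (Real.exp (th p * ((k - p.b - m : ℕ) : ℝ)) - 1)) m j ≤ 1 := by
      intro m _
      refine (ring_sum p hok hy2 t m).trans ?_
      rw [← div_eq_mul_inv, div_le_one hy0]
      linarith
    refine (Finset.sum_le_sum h2).trans ?_
    rw [Finset.sum_const, Finset.card_range, nsmul_eq_mul, mul_one]
  have hsum : ∑ j ∈ Finset.range t, a j ≤ 2 * p.n := by
    show ∑ j ∈ Finset.range t, (p.h * (∫ w, p.kd w * (Real.exp (g1 j w) - 1)) +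
        ∑ k ∈ Finset.range p.n, p.pring k j * (Real.exp (g2 j k) - 1)) ≤ 2 * p.n
    rw [Finset.sum_add_distrib]
    linarith
  have hfin : 1000 * (p.n : ℝ) ≤ Real.log p.L * p.n := mul_le_mul_of_nonneg_right hlog hn0
  unfold th
  linarith

end KDB.I.P13
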